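import Mathlib
import Pool.Agent.Lib.MP_9317e9_co.Defs
import Pool.Agent.Lib.MP_9317e9_co.Peel.Defs
import Pool.Agent.Lib.MP_9317e9_co.Peel.Tower

set_option autoImplicit false

universe u

namespace Pool.Agent.Results.MP_9317e9_co.AlmostPerfect

open Pool.Agent.Lib.MP_9317e9_co

/-- For a digraph `G` and a set `Y` of vertices (of any cardinality) the following are equivalent:
all induced subdigraphs `G[U]`, `U ⊆ Y`, satisfy the conclusion of the kernel-sink conjecture;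
every nonempty `Z ⊆ Y` carries an almost perfect position (`Peel.Pos`) with `A ∪ B ≠ ∅`. -/
theorem result {V : Type u} (G : Digraph V) (Y : Set V) :
    (∀ U ⊆ Y, ∃ W₀ W₁ A B : Set V, W₀ ∪ W₁ = U ∧ Disjoint W₀ W₁ ∧ QK G W₀ A ∧ QS G W₁ B) ↔
      ∀ Z ⊆ Y, Z.Nonempty → ∃ A S B T : Set V, (A ∪ B).Nonempty ∧ Peel.Pos G Z A S B T := by
  constructor
  · intro h Z hZ hne
    obtain ⟨A, S, B, T, h1, h2⟩ := Peel.pos_of_solv hne (h Z hZ)
    exact ⟨A, S, B, T, h2, h1⟩
  · intro h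
    exact Peel.solv_of_pos fun Z hZ hne => by
      obtain ⟨A, S, B, T, h1, h2⟩ := h Z hZ hne
      exact ⟨A, S, B, T, h2, h1⟩

end Pool.Agent.Results.MP_9317e9_co.AlmostPerfect
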