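import Mathlib
import Pool.Agent.Lib.MP_9317e9_co.Defs
import Pool.Agent.Lib.MP_9317e9_co.Cl.Main

set_option autoImplicit false

universe u

namespace Pool.Agent.Results.MP_9317e9_co.ClosureTheorem

open Pool.Agent.Lib.MP_9317e9_co

/-- The kernel-sink conjecture holds for every loopless digraph, of any cardinality, whose vertex
set is built, i.e. belongs to the least class of sets of vertices which is closed under the
extension rule, the rule of non-neighbours and the substitution rule. -/
theorem result {V : Type u} (G : Digraph V) (hG : ∀ v, ¬ G.Adj v v)
    (hV : Cl.Built G Set.univ) :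
    ∃ W : Set V, (∃ A, QK G W A) ∧ ∃ B, QS G Wᶜ B :=
  Cl.main G hG hV

end Pool.Agent.Results.MP_9317e9_co.ClosureTheorem
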