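import Mathlib
import Pool.Agent.Lib.MP_9317e9_co.Defs
import Pool.Agent.Lib.MP_9317e9_co.Cn.Card

set_option autoImplicit false

universe u

namespace Pool.Agent.Results.MP_9317e9_co.FiniteMiddles

open Pool.Agent.Lib.MP_9317e9_co

/-- The kernel-sink conjecture holds for every loopless digraph of any cardinality whose vertex set
is the union of two sets `X` and `Z` such that every induced subdigraph of `G[Z]` satisfies the
conjecture, and such that for some `n` the following holds: any `n` vertices of `X` have at most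
countably many common neighbours in `X`, and for all disjoint sets `P`, `Q` of `n` vertices of `X`
each, only finitely many `u ∈ X` satisfy `t → u → s` (and not `u → t`, not `s → u`) for all
`s ∈ P` and `t ∈ Q`. For example it holds for every digraph whose underlying graph contains no
complete bipartite graph with parts of sizes `n` and `ℵ₀`. -/
theorem result {V : Type u} (G : Digraph V) (hG : ∀ v, ¬ G.Adj v v) (X Z : Set V)
    (hXZ : ∀ v, v ∈ X ∨ v ∈ Z) (n : ℕ)
    (hA : ∀ P : Finset V, (P : Set V) ⊆ X → P.card = n →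
      {u | u ∈ X ∧ ∀ s ∈ P, G.Adj u s ∨ G.Adj s u}.Countable)
    (hC : ∀ P Q : Finset V, (P : Set V) ⊆ X → (Q : Set V) ⊆ X → P.card = n → Q.card = n →
      Disjoint P Q →
      {u | u ∈ X ∧ (∀ s ∈ P, G.Adj u s ∧ ¬ G.Adj s u) ∧ ∀ t ∈ Q, G.Adj t u ∧ ¬ G.Adj u t}.Finite)
    (hZ : ∀ U ⊆ Z, ∃ W ⊆ U, (∃ A, QK G W A) ∧ ∃ B, QS G (U \ W) B) :
    ∃ W : Set V, (∃ A, QK G W A) ∧ ∃ B, QS G Wᶜ B :=
  Cn.main_card hG hXZ hA hC hZ

end Pool.Agent.Results.MP_9317e9_co.FiniteMiddles
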