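import Mathlib
import Pool.Agent.Lib.MP_9317e9_co.Defs
import Pool.Agent.Lib.MP_9317e9_co.Rw.Ex

set_option autoImplicit false

universe u

namespace Pool.Agent.Results.MP_9317e9_co.SparseSums

open Pool.Agent.Lib.MP_9317e9_co Cardinal

/-- Let `κ` be an infinite cardinal and let the vertex set of the loopless digraph `G` be divided into
at most `κ` parts (the fibres of `r`) such that any fewer than `κ` vertices outside a part have together
fewer than `κ` neighbours in it. Suppose that every part has at least `κ` vertices, each of them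
non-adjacent to only finitely many vertices of the part (for instance, the part is an infinite
tournament), or has, for every set `F` of fewer than `κ` vertices, a partition with a finite
quasi-kernel and a finite quasi-sink which avoid `F`. Then `G` satisfies the kernel-sink conjecture. -/
theorem result {V ι : Type u} (G : Digraph V) (hG : ∀ v, ¬ G.Adj v v) (r : V → ι)
    (κ : Cardinal.{u}) (hκ : ℵ₀ ≤ κ) (hι : #ι ≤ κ)
    (hsp : ∀ (x : ι) (U : Set V), #U < κ → (∀ u ∈ U, r u ≠ x) →
      #{v | r v = x ∧ ∃ u ∈ U, G.Adj u v ∨ G.Adj v u} < κ)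
    (hrow : ∀ x : ι, (κ ≤ #{v | r v = x} ∧
        ∀ u, r u = x → {v | r v = x ∧ v ≠ u ∧ ¬ G.Adj u v ∧ ¬ G.Adj v u}.Finite) ∨
      ∀ F : Set V, #F < κ → ∃ W A B : Set V, W ⊆ {v | r v = x} ∧ A.Finite ∧ B.Finite ∧
        Disjoint A F ∧ Disjoint B F ∧ QK G W A ∧ QS G ({v | r v = x} \ W) B) :
    ∃ W : Set V, (∃ A, QK G W A) ∧ ∃ B, QS G Wᶜ B :=
  Rw.main_near G hG r κ hκ hι hsp hrow

end Pool.Agent.Results.MP_9317e9_co.SparseSums
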